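import Pool.Agent.Helper41_SPX.Poi

/-!
# The Poisson kernel: open sets and closed sets
-/

set_option autoImplicit false

open MeasureTheory ProbabilityTheory Filter

open scoped ENNReal Topology

noncomputable section

namespace Pool.Agent.SPX.H41

/-- the Poisson kernel -/
def pk (η t E : ℝ) : ℝ := η / Real.pi / ((E - t) ^ 2 + η ^ 2)

theorem pk_nonneg {η : ℝ} (hη : 0 < η) (t E : ℝ) : 0 ≤ pk η t E := by
  unfold pk
  have := Real.pi_pos
  positivity

theorem pk_cont {η : ℝ} (hη : 0 < η) (t : ℝ) : Continuous fun E => pk η t E := by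
  unfold pk
  exact Continuous.div (by fun_prop) (by fun_prop) fun E => (pos_den hη _).ne'

theorem pk_int {η : ℝ} (hη : 0 < η) (t : ℝ) : Integrable fun E => pk η t E := by
  have h1 : Integrable fun x : ℝ => (1 + x ^ 2)⁻¹ := integrable_inv_one_add_sq
  have h2 : Integrable fun x : ℝ => (1 + (x / η) ^ 2)⁻¹ := h1.comp_div hη.ne'
  have h3 : Integrable fun E : ℝ => (1 + ((E - t) / η) ^ 2)⁻¹ := h2.comp_sub_right t
  refine (h3.const_mul (η⁻¹ / Real.pi)).congr (Eventually.of_forall fun E => ?_)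
  show η⁻¹ / Real.pi * (1 + ((E - t) / η) ^ 2)⁻¹ = η / Real.pi / ((E - t) ^ 2 + η ^ 2)
  have := Real.pi_pos
  field_simp
  ring

theorem pk_val {η : ℝ} (hη : 0 < η) (t : ℝ) : ∫ E, pk η t E = 1 := by
  have h := sub_eq (fun _ => 1) hη t
  simp only [one_mul] at h
  unfold Ph at h
  simp only [one_mul] at h
  rw [integral_univ_inv_one_add_sq] at h
  have h2 : (fun E => pk η t E) = fun E => Real.pi⁻¹ * (η / ((t - E) ^ 2 + η ^ 2)) := by
    funext E
    unfold pk
    have e : (E - t) ^ 2 = (t - E) ^ 2 := by ring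
    rw [e]
    ring
  rw [h2, integral_const_mul, h, inv_mul_cancel₀ Real.pi_ne_zero]

theorem pk_univ {η : ℝ} (hη : 0 < η) (t : ℝ) : ∫⁻ E, ENNReal.ofReal (pk η t E) = 1 := by
  rw [← ofReal_integral_eq_lintegral_ofReal (pk_int hη t)
    (Eventually.of_forall fun E => pk_nonneg hη t E), pk_val hη, ENNReal.ofReal_one]

/-- far from `t` -/
theorem pk_far {η s : ℝ} (hη : 0 < η) (hs : 0 < s) (t : ℝ) {A : Set ℝ} (hA : MeasurableSet A)
    (hd : ∀ E ∈ A, s ≤ |E - t|) :
    ∫⁻ E in A, ENNReal.ofReal (pk η t E) ≤ ENNReal.ofReal (η * (1 + 1 / s ^ 2)) := by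
  have h1 : Integrable fun x : ℝ => (1 + x ^ 2)⁻¹ := integrable_inv_one_add_sq
  have h2 : Integrable fun E : ℝ => (1 + (E - t) ^ 2)⁻¹ := h1.comp_sub_right t
  have hpi := Real.pi_pos
  have h3 : ∫⁻ E in A, ENNReal.ofReal (pk η t E) ≤
      ∫⁻ E in A, ENNReal.ofReal (η / Real.pi * (1 + 1 / s ^ 2) * (1 + (E - t) ^ 2)⁻¹) := by
    refine setLIntegral_mono' hA fun E hE => ENNReal.ofReal_le_ofReal ?_
    have h4 := hd E hE
    have h5 : s ^ 2 ≤ (E - t) ^ 2 := by
      rw [← sq_abs (E - t)]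
      exact pow_le_pow_left₀ hs.le h4 2
    have hx : 0 < (E - t) ^ 2 := lt_of_lt_of_le (by positivity) h5
    unfold pk
    have h6 : η / Real.pi / ((E - t) ^ 2 + η ^ 2) ≤ η / Real.pi / (E - t) ^ 2 :=
      div_le_div_of_nonneg_left (by positivity) hx (by nlinarith [sq_nonneg η])
    refine h6.trans ?_
    have h7 : 1 / (E - t) ^ 2 ≤ (1 + 1 / s ^ 2) * (1 + (E - t) ^ 2)⁻¹ := by
      rw [← div_eq_mul_inv, div_le_div_iff₀ hx (by positivity)]
      have h8 : 1 ≤ 1 / s ^ 2 * (E - t) ^ 2 := by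
        rw [one_div, ← div_eq_inv_mul, le_div_iff₀ (by positivity)]
        linarith
      linarith
    calc η / Real.pi / (E - t) ^ 2 = η / Real.pi * (1 / (E - t) ^ 2) := by ring
      _ ≤ η / Real.pi * ((1 + 1 / s ^ 2) * (1 + (E - t) ^ 2)⁻¹) :=
          mul_le_mul_of_nonneg_left h7 (by positivity)
      _ = _ := by ring
  refine h3.trans ((setLIntegral_le_lintegral A _).trans ?_)
  rw [← ofReal_integral_eq_lintegral_ofReal (h2.const_mul _)
    (Eventually.of_forall fun E => by positivity)]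
  refine ENNReal.ofReal_le_ofReal (le_of_eq ?_)
  rw [integral_const_mul, integral_sub_right_eq_self (fun x : ℝ => (1 + x ^ 2)⁻¹) t,
    integral_univ_inv_one_add_sq]
  field_simp

theorem pk_le_one {η : ℝ} (hη : 0 < η) (t : ℝ) (A : Set ℝ) :
    ∫⁻ E in A, ENNReal.ofReal (pk η t E) ≤ 1 :=
  (setLIntegral_le_lintegral A _).trans (pk_univ hη t).le

theorem far_lim (c : ℝ) : Tendsto (fun η : ℝ => ENNReal.ofReal (η * c)) (𝓝[>] 0) (𝓝 0) := by
  have h : Tendsto (fun η : ℝ => η * c) (𝓝[>] 0) (𝓝 (0 * c)) :=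
    (tendsto_id.mono_left nhdsWithin_le_nhds).mul_const c
  rw [zero_mul] at h
  have := ENNReal.tendsto_ofReal h
  rwa [ENNReal.ofReal_zero] at this

/-- a point outside of a closed set -/
theorem lim_closed {S : Set ℝ} (hS : IsClosed S) {t : ℝ} (ht : t ∉ S) :
    Tendsto (fun η : ℝ => ∫⁻ E in S, ENNReal.ofReal (pk η t E)) (𝓝[>] 0) (𝓝 0) := by
  obtain ⟨s, hs, hb⟩ := Metric.isOpen_iff.1 hS.isOpen_compl t ht
  refine tendsto_of_tendsto_of_tendsto_of_le_of_le' tendsto_const_nhds (far_lim (1 + 1 / s ^ 2))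
    (Eventually.of_forall fun η => zero_le) ?_
  filter_upwards [self_mem_nhdsWithin] with η hη
  refine pk_far hη hs t hS.measurableSet fun E hE => ?_
  by_contra hlt
  push Not at hlt
  exact hb (by rw [Metric.mem_ball, Real.dist_eq]; exact hlt) hE

/-- a point of an open set -/
theorem lim_open {S : Set ℝ} (hS : IsOpen S) {t : ℝ} (ht : t ∈ S) :
    Tendsto (fun η : ℝ => ∫⁻ E in S, ENNReal.ofReal (pk η t E)) (𝓝[>] 0) (𝓝 1) := by
  have h1 := lim_closed hS.isClosed_compl (t := t) (fun h => h ht)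
  have h2 : Tendsto (fun η : ℝ => 1 - ∫⁻ E in Sᶜ, ENNReal.ofReal (pk η t E)) (𝓝[>] 0)
      (𝓝 (1 - 0)) := ENNReal.Tendsto.sub tendsto_const_nhds h1 (Or.inl ENNReal.one_ne_top)
  rw [tsub_zero] at h2
  refine h2.congr' ?_
  filter_upwards [self_mem_nhdsWithin] with η hη
  have h3 := lintegral_add_compl (fun E => ENNReal.ofReal (pk η t E)) hS.measurableSet
    (μ := volume)
  rw [pk_univ hη t] at h3
  rw [← h3]
  refine ENNReal.add_sub_cancel_right ?_
  exact ((pk_le_one hη t Sᶜ).trans_lt ENNReal.one_lt_top).ne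

theorem meas_in (η : ℝ) (S : Set ℝ) :
    Measurable fun t : ℝ => ∫⁻ E in S, ENNReal.ofReal (pk η t E) := by
  have h : Measurable (Function.uncurry fun t E : ℝ => ENNReal.ofReal (pk η t E)) := by
    have : Measurable fun p : ℝ × ℝ => ENNReal.ofReal (pk η p.1 p.2) := by
      unfold pk
      fun_prop
    exact this
  exact h.lintegral_prod_right' (ν := volume.restrict S)

/-- (1) open sets -/
theorem opn1 (μ : Measure ℝ) {S : Set ℝ} (hS : IsOpen S) {ε : ℝ≥0∞}
    (h : ∃ᶠ η in 𝓝[>] (0 : ℝ), ∫⁻ t, (∫⁻ E in S, ENNReal.ofReal (pk η t E)) ∂μ ≤ ε) :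
    μ S ≤ ε := by
  obtain ⟨e, he, hle⟩ := exists_seq_forall_of_frequently h
  have h1 : μ S ≤ ∫⁻ t, liminf (fun n => ∫⁻ E in S, ENNReal.ofReal (pk (e n) t E)) atTop ∂μ := by
    rw [← lintegral_indicator_one hS.measurableSet]
    refine lintegral_mono fun t => ?_
    by_cases ht : t ∈ S
    · rw [Set.indicator_of_mem ht]
      have h2 := (lim_open hS ht).comp he
      have h3 : liminf (fun n => ∫⁻ E in S, ENNReal.ofReal (pk (e n) t E)) atTop = 1 :=
        h2.liminf_eq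
      rw [h3]
      exact le_refl (1 : ℝ≥0∞)
    · rw [Set.indicator_of_notMem ht]
      exact zero_le
  refine h1.trans ((lintegral_liminf_le fun n => meas_in (e n) S).trans ?_)
  refine (liminf_le_liminf (Eventually.of_forall hle)).trans ?_
  rw [liminf_const]

/-- (2) closed sets -/
theorem opn2 (μ : Measure ℝ) [IsFiniteMeasure μ] {S : Set ℝ} (hS : IsClosed S) (h0 : μ S = 0) :
    Tendsto (fun η : ℝ => ∫⁻ t, (∫⁻ E in S, ENNReal.ofReal (pk η t E)) ∂μ) (𝓝[>] 0) (𝓝 0) := by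
  have h1 : (0 : ℝ≥0∞) = ∫⁻ _, (0 : ℝ≥0∞) ∂μ := by rw [lintegral_zero]
  rw [h1]
  refine tendsto_lintegral_filter_of_dominated_convergence (fun _ => 1)
    (Eventually.of_forall fun η => meas_in η S) ?_ ?_ ?_
  · filter_upwards [self_mem_nhdsWithin] with η hη
    exact Eventually.of_forall fun t => pk_le_one hη t S
  · rw [lintegral_const, one_mul]
    exact measure_ne_top μ _
  · have h2 : ∀ᵐ t ∂μ, t ∉ S := by
      rw [ae_iff]
      simpa using h0
    filter_upwards [h2] with t ht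
    exact lim_closed hS ht

end Pool.Agent.SPX.H41
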