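import Pool.Agent.SPX.Stmts
import Pool.Agent.Helper41_SPX.Poi2

/-!
# SPX, row OPN
-/

set_option autoImplicit false

open MeasureTheory Filter

open scoped ENNReal Topology

namespace Pool.Agent.SPX.H41

theorem opn (hW : WtbStmt) : OpnStmt := by
  intro d V u μ S hS
  haveI : IsFiniteMeasure μ := hS.1
  refine ⟨fun ε hO hfr => ?_, fun hC h0 => ?_⟩
  · refine opn1 μ hO ((hfr.and_eventually self_mem_nhdsWithin).mono fun η h => ?_)
    obtain ⟨h1, h2⟩ := h
    rw [hW d V u μ S η hS h2 hO.measurableSet] at h1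
    exact h1
  · refine (opn2 μ hC h0).congr' ?_
    filter_upwards [self_mem_nhdsWithin] with η hη
    exact (hW d V u μ S η hS hη hC.measurableSet).symm

end Pool.Agent.SPX.H41
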