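import Mathlib

/-!
# The Poisson kernel: Stieltjes inversion, and limits
-/

set_option autoImplicit false

open MeasureTheory ProbabilityTheory Filter

open scoped ENNReal Topology

noncomputable section

namespace Pool.Agent.SPX.H41

/-! ### Stieltjes inversion -/

theorem im_inv (t E η : ℝ) : ((((t : ℝ) : ℂ) - ⟨E, η⟩)⁻¹).im = η / ((t - E) ^ 2 + η ^ 2) := by
  rw [Complex.inv_im, Complex.normSq_apply]
  simp only [Complex.sub_im, Complex.ofReal_im, Complex.sub_re, Complex.ofReal_re]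
  ring

theorem cont_inv {E η : ℝ} (hη : 0 < η) : Continuous fun t : ℝ => (((t : ℝ) : ℂ) - ⟨E, η⟩)⁻¹ := by
  refine Continuous.inv₀ (by fun_prop) fun t h => ?_
  have := congrArg Complex.im h
  simp at this
  exact hη.ne' this

theorem norm_inv_le {E η : ℝ} (hη : 0 < η) (t : ℝ) : ‖(((t : ℝ) : ℂ) - ⟨E, η⟩)⁻¹‖ ≤ η⁻¹ := by
  rw [norm_inv]
  refine inv_anti₀ hη ?_
  have h := Complex.abs_im_le_norm (((t : ℝ) : ℂ) - ⟨E, η⟩)
  simp only [Complex.sub_im, Complex.ofReal_im, zero_sub, abs_neg, abs_of_pos hη] at h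
  exact h

theorem im_int (μ : Measure ℝ) [IsFiniteMeasure μ] {E η : ℝ} (hη : 0 < η) :
    (∫ t : ℝ, (((t : ℝ) : ℂ) - ⟨E, η⟩)⁻¹ ∂μ).im = ∫ t : ℝ, η / ((t - E) ^ 2 + η ^ 2) ∂μ := by
  have hint : Integrable (fun t : ℝ => (((t : ℝ) : ℂ) - ⟨E, η⟩)⁻¹) μ :=
    Integrable.of_bound (cont_inv hη).aestronglyMeasurable η⁻¹
      (Eventually.of_forall fun t => norm_inv_le hη t)
  have h := Complex.imCLM.integral_comp_comm hint
  simp only [Complex.imCLM_apply] at h
  rw [← h]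
  exact integral_congr_ae (Eventually.of_forall fun t => im_inv t E η)

/-- the Poisson integral -/
def Ph (f : ℝ → ℝ) (η t : ℝ) : ℝ := ∫ y : ℝ, f (η * y + t) * (1 + y ^ 2)⁻¹

theorem sub_eq (f : ℝ → ℝ) {η : ℝ} (hη : 0 < η) (t : ℝ) :
    ∫ E : ℝ, f E * (η / ((t - E) ^ 2 + η ^ 2)) = Ph f η t := by
  have h1 : ∫ E : ℝ, f E * (η / ((t - E) ^ 2 + η ^ 2)) =
      ∫ x : ℝ, f (x + t) * (η / (x ^ 2 + η ^ 2)) := by
    rw [← integral_add_right_eq_self (fun E => f E * (η / ((t - E) ^ 2 + η ^ 2))) t]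
    refine integral_congr_ae (Eventually.of_forall fun x => ?_)
    show f (x + t) * (η / ((t - (x + t)) ^ 2 + η ^ 2)) = f (x + t) * (η / (x ^ 2 + η ^ 2))
    congr 3
    ring
  have h2 := Measure.integral_comp_div (fun y : ℝ => f (η * y + t) * (1 + y ^ 2)⁻¹) η
  rw [abs_of_pos hη, smul_eq_mul] at h2
  have h3 : ∫ x : ℝ, f (x + t) * (η / (x ^ 2 + η ^ 2)) =
      η⁻¹ * ∫ x : ℝ, f (η * (x / η) + t) * (1 + (x / η) ^ 2)⁻¹ := by
    rw [← integral_const_mul]
    refine integral_congr_ae (Eventually.of_forall fun x => ?_)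
    show f (x + t) * (η / (x ^ 2 + η ^ 2)) =
      η⁻¹ * (f (η * (x / η) + t) * (1 + (x / η) ^ 2)⁻¹)
    have e1 : η * (x / η) = x := by field_simp
    rw [e1]
    have e2 : η / (x ^ 2 + η ^ 2) = η⁻¹ * (1 + (x / η) ^ 2)⁻¹ := by
      field_simp
      ring
    rw [e2]
    ring
  rw [h1, h3, h2, ← mul_assoc, inv_mul_cancel₀ hη.ne', one_mul]
  rfl

theorem pos_den {η : ℝ} (hη : 0 < η) (x : ℝ) : 0 < x ^ 2 + η ^ 2 := by positivity

theorem fub {f : ℝ → ℝ} (hf : Continuous f) {B : ℝ} (hB : ∀ x, |f x| ≤ B) (μ : Measure ℝ)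
    [IsFiniteMeasure μ] {η : ℝ} (hη : 0 < η) :
    ∫ t, Ph f η t ∂μ = ∫ E : ℝ, f E * ∫ t, η / ((t - E) ^ 2 + η ^ 2) ∂μ := by
  have hB0 : 0 ≤ B := (abs_nonneg _).trans (hB 0)
  have hcont : Continuous (Function.uncurry fun t E : ℝ => f E * (η / ((t - E) ^ 2 + η ^ 2))) := by
    have : Continuous fun p : ℝ × ℝ => f p.2 * (η / ((p.1 - p.2) ^ 2 + η ^ 2)) := by
      refine (hf.comp continuous_snd).mul (Continuous.div (by fun_prop) (by fun_prop) fun p => ?_)
      exact (pos_den hη _).ne'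
    exact this
  have hbase : ∀ t : ℝ, Integrable fun E : ℝ => η / ((t - E) ^ 2 + η ^ 2) := by
    intro t
    have h1 : Integrable fun x : ℝ => (1 + x ^ 2)⁻¹ := integrable_inv_one_add_sq
    have h2 : Integrable fun x : ℝ => (1 + (x / η) ^ 2)⁻¹ := h1.comp_div hη.ne'
    have h3 : Integrable fun E : ℝ => (1 + ((E - t) / η) ^ 2)⁻¹ := h2.comp_sub_right t
    refine (h3.const_mul η⁻¹).congr (Eventually.of_forall fun E => ?_)
    show η⁻¹ * (1 + ((E - t) / η) ^ 2)⁻¹ = η / ((t - E) ^ 2 + η ^ 2)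
    field_simp
    ring
  have hval : ∀ t : ℝ, ∫ E : ℝ, η / ((t - E) ^ 2 + η ^ 2) = Real.pi := by
    intro t
    have h := sub_eq (fun _ => 1) hη t
    simp only [one_mul] at h
    rw [h]
    unfold Ph
    simp only [one_mul]
    exact integral_univ_inv_one_add_sq
  have hint : Integrable (Function.uncurry fun t E : ℝ => f E * (η / ((t - E) ^ 2 + η ^ 2)))
      (μ.prod volume) := by
    rw [integrable_prod_iff hcont.aestronglyMeasurable]
    have hle : ∀ t E : ℝ, ‖f E * (η / ((t - E) ^ 2 + η ^ 2))‖ ≤ B * (η / ((t - E) ^ 2 + η ^ 2)) := by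
      intro t E
      rw [norm_mul, Real.norm_eq_abs, Real.norm_eq_abs,
        abs_of_nonneg (div_nonneg hη.le (pos_den hη _).le)]
      exact mul_le_mul_of_nonneg_right (hB E) (div_nonneg hη.le (pos_den hη _).le)
    have hsl : ∀ t : ℝ, Integrable fun E : ℝ => f E * (η / ((t - E) ^ 2 + η ^ 2)) := fun t =>
      ((hbase t).const_mul B).mono'
        (hcont.comp (Continuous.prodMk_right t)).aestronglyMeasurable
        (Eventually.of_forall fun E => hle t E)
    refine ⟨Eventually.of_forall hsl, ?_⟩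
    refine Integrable.of_bound (C := B * Real.pi) ?_ (Eventually.of_forall fun t => ?_)
    · exact (hcont.norm.stronglyMeasurable.integral_prod_right (ν := volume)).aestronglyMeasurable
    · rw [Real.norm_eq_abs, abs_of_nonneg (integral_nonneg fun E => norm_nonneg _)]
      calc ∫ E : ℝ, ‖f E * (η / ((t - E) ^ 2 + η ^ 2))‖
          ≤ ∫ E : ℝ, B * (η / ((t - E) ^ 2 + η ^ 2)) :=
            integral_mono (hsl t).norm ((hbase t).const_mul B) (hle t)
        _ = B * Real.pi := by rw [integral_const_mul, hval]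
  have h1 := integral_integral_swap hint
  calc ∫ t, Ph f η t ∂μ = ∫ t, (∫ E : ℝ, f E * (η / ((t - E) ^ 2 + η ^ 2))) ∂μ :=
        integral_congr_ae (Eventually.of_forall fun t => (sub_eq f hη t).symm)
    _ = ∫ E : ℝ, (∫ t, f E * (η / ((t - E) ^ 2 + η ^ 2)) ∂μ) := h1
    _ = _ := integral_congr_ae (Eventually.of_forall fun E => integral_const_mul _ _)

theorem lim_in {f : ℝ → ℝ} (hf : Continuous f) {B : ℝ} (hB : ∀ x, |f x| ≤ B) (t : ℝ)
    {e : ℕ → ℝ} (he : Tendsto e atTop (𝓝 0)) :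
    Tendsto (fun n => Ph f (e n) t) atTop (𝓝 (f t * Real.pi)) := by
  have h1 : f t * Real.pi = ∫ y : ℝ, f t * (1 + y ^ 2)⁻¹ := by
    rw [integral_const_mul, integral_univ_inv_one_add_sq]
  rw [h1]
  unfold Ph
  refine tendsto_integral_of_dominated_convergence (fun y => B * (1 + y ^ 2)⁻¹) ?_
    (integrable_inv_one_add_sq.const_mul B) ?_ ?_
  · intro n
    refine Continuous.aestronglyMeasurable ?_
    refine (hf.comp (by fun_prop)).mul (Continuous.inv₀ (by fun_prop) fun y => ?_)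
    positivity
  · intro n
    refine Eventually.of_forall fun y => ?_
    have h0 : (0 : ℝ) ≤ (1 + y ^ 2)⁻¹ := by positivity
    rw [norm_mul, Real.norm_eq_abs, Real.norm_eq_abs, abs_of_nonneg h0]
    exact mul_le_mul_of_nonneg_right (hB _) h0
  · refine Eventually.of_forall fun y => ?_
    refine Tendsto.mul_const _ ?_
    have h2 : Tendsto (fun n => e n * y + t) atTop (𝓝 t) := by
      have := (he.mul_const y).add_const t
      rwa [zero_mul, zero_add] at this
    exact (hf.tendsto t).comp h2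

theorem lim_out {f : ℝ → ℝ} (hf : Continuous f) {B : ℝ} (hB : ∀ x, |f x| ≤ B) (μ : Measure ℝ)
    [IsFiniteMeasure μ] {e : ℕ → ℝ} (he : Tendsto e atTop (𝓝 0)) :
    Tendsto (fun n => ∫ t, Ph f (e n) t ∂μ) atTop (𝓝 (∫ t, f t * Real.pi ∂μ)) := by
  refine tendsto_integral_of_dominated_convergence (fun _ => B * Real.pi) ?_
    (integrable_const _) ?_ ?_
  · intro n
    have hc : Continuous (Function.uncurry fun t y : ℝ => f (e n * y + t) * (1 + y ^ 2)⁻¹) := by
      have : Continuous fun p : ℝ × ℝ => f (e n * p.2 + p.1) * (1 + p.2 ^ 2)⁻¹ := by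
        refine (hf.comp (by fun_prop)).mul (Continuous.inv₀ (by fun_prop) fun y => ?_)
        positivity
      exact this
    exact (hc.stronglyMeasurable.integral_prod_right (ν := volume)).aestronglyMeasurable
  · intro n
    refine Eventually.of_forall fun t => ?_
    unfold Ph
    refine (norm_integral_le_integral_norm _).trans ?_
    have h0 : ∀ y : ℝ, (0 : ℝ) ≤ (1 + y ^ 2)⁻¹ := fun y => by positivity
    calc ∫ y : ℝ, ‖f (e n * y + t) * (1 + y ^ 2)⁻¹‖ ≤ ∫ y : ℝ, B * (1 + y ^ 2)⁻¹ := by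
          refine integral_mono_of_nonneg (Eventually.of_forall fun y => norm_nonneg _)
            (integrable_inv_one_add_sq.const_mul B) (Eventually.of_forall fun y => ?_)
          show ‖f (e n * y + t) * (1 + y ^ 2)⁻¹‖ ≤ B * (1 + y ^ 2)⁻¹
          rw [norm_mul, Real.norm_eq_abs, Real.norm_eq_abs, abs_of_nonneg (h0 y)]
          exact mul_le_mul_of_nonneg_right (hB _) (h0 y)
      _ = B * Real.pi := by rw [integral_const_mul, integral_univ_inv_one_add_sq]
  · exact Eventually.of_forall fun t => lim_in hf hB t he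

theorem stieltjes {μ ν : Measure ℝ} [IsFiniteMeasure μ] [IsFiniteMeasure ν]
    (h : ∀ z : ℂ, z.im ≠ 0 → ∫ E : ℝ, ((E : ℂ) - z)⁻¹ ∂μ = ∫ E : ℝ, ((E : ℂ) - z)⁻¹ ∂ν) :
    μ = ν := by
  refine ext_of_forall_integral_eq_of_IsFiniteMeasure fun f => ?_
  have hf : Continuous f := f.continuous
  have hB : ∀ x, |f x| ≤ ‖f‖ := fun x => f.norm_coe_le_norm x
  have h1 : ∀ η : ℝ, 0 < η → ∫ t, Ph f η t ∂μ = ∫ t, Ph f η t ∂ν := by
    intro η hη
    rw [fub hf hB μ hη, fub hf hB ν hη]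
    refine integral_congr_ae (Eventually.of_forall fun E => ?_)
    show f E * ∫ t, η / ((t - E) ^ 2 + η ^ 2) ∂μ = f E * ∫ t, η / ((t - E) ^ 2 + η ^ 2) ∂ν
    rw [← im_int μ hη, ← im_int ν hη, h ⟨E, η⟩ hη.ne']
  have he : Tendsto (fun n : ℕ => 1 / ((n : ℝ) + 1)) atTop (𝓝 0) :=
    tendsto_one_div_add_atTop_nhds_zero_nat
  have h2 := lim_out hf hB μ he
  have h3 := lim_out hf hB ν he
  have h4 : (fun n : ℕ => ∫ t, Ph f (1 / ((n : ℝ) + 1)) t ∂μ) =
      fun n : ℕ => ∫ t, Ph f (1 / ((n : ℝ) + 1)) t ∂ν := by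
    funext n
    exact h1 _ (by positivity)
  rw [h4] at h2
  have h5 := tendsto_nhds_unique h2 h3
  rw [integral_mul_const, integral_mul_const] at h5
  exact mul_right_cancel₀ Real.pi_ne_zero h5

end Pool.Agent.SPX.H41
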