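import Pool.Agent.SPX.Stmts
import Pool.Agent.Helper41_SPX.Poi

/-!
# SPX, row UNM
-/

set_option autoImplicit false

namespace Pool.Agent.SPX.H41

theorem unm : UnmStmt := by
  intro μ ν hμ hν h
  haveI := hμ
  haveI := hν
  exact stieltjes h

end Pool.Agent.SPX.H41
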